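import Pool.Agent.Helper62.DSH.StA

/-!
# Project DSH, module GFR: connection coefficients of an orthonormal frame
-/

set_option autoImplicit false

open Set Filter Topology MeasureTheory
open scoped ContDiff ENNReal

namespace Pool.Agent.Helper34.DSH

open Helper62.LH Helper62.DSH

theorem hGfr (hChr : StChr) : TGfr := by
  intro n g Γ hg hΓ F hF hO hor
  obtain ⟨hΓs, -, hcomp⟩ := hChr n g Γ hg hΓ
  have hgs := hg.smooth
  have hDF : ∀ b, ContDiff ℝ ∞ (fderiv ℝ (F b)) := fun b => (hF b).fderiv_right (by simp)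
  have hFd : ∀ b x, HasFDerivAt (F b) (fderiv ℝ (F b) x) x := fun b x =>
    ((hF b).differentiable (by simp) x).hasFDerivAt
  refine ⟨fun x a b c => g x (fderiv ℝ (F b) x (F a x) + Γ x (F a x) (F b x)) (F c x),
    hF, ?_, hO, hor, ?_, ?_⟩
  · intro a b c
    have h1 : ContDiff ℝ ∞ (fun x => fderiv ℝ (F b) x (F a x) + Γ x (F a x) (F b x)) :=
      ((hDF b).clm_apply (hF a)).add ((hΓs.clm_apply (hF a)).clm_apply (hF b))
    exact (hgs.clm_apply h1).clm_apply (hF c)
  · intro x a b
    exact ((hO x).expd _).symm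
  · intro x a b c
    have hgd : HasFDerivAt g (fderiv ℝ g x) x :=
      (hgs.differentiable (by simp) x).hasFDerivAt
    have h1 := (hgd.clm_apply (hFd b x)).clm_apply (hFd c x)
    have h2 : (fun y => g y (F b y) (F c y)) = fun _ => if b = c then (1 : ℝ) else 0 := by
      funext y
      exact (hO y).orth b c
    rw [h2] at h1
    have h3 := congrArg (fun L : E n →L[ℝ] ℝ => L (F a x))
      (h1.unique (hasFDerivAt_const (if b = c then (1 : ℝ) else 0) x))
    have h4 : g x (F b x) (fderiv ℝ (F c) x (F a x)) + (g x (fderiv ℝ (F b) x (F a x)) (F c x) +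
        fderiv ℝ g x (F a x) (F b x) (F c x)) = 0 := by
      simpa using h3
    have h5 := hcomp x (F a x) (F b x) (F c x)
    have s1 := hg.symm x (fderiv ℝ (F c) x (F a x)) (F b x)
    have s2 := hg.symm x (Γ x (F a x) (F c x)) (F b x)
    show g x (fderiv ℝ (F b) x (F a x) + Γ x (F a x) (F b x)) (F c x) =
      -(g x (fderiv ℝ (F c) x (F a x) + Γ x (F a x) (F c x)) (F b x))
    rw [map_add, map_add, add_apply, add_apply, s1, s2]
    linarith

end Pool.Agent.Helper34.DSH
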